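import Pool.Agent.H211.CH.Stm2

/-!
# Chains of strict intertwining of polynomials (problem MP_1d703b_an): the assembly
-/

set_option autoImplicit false

open Polynomial

namespace Pool.Agent.H211.CH

universe u

variable {K : Type u} [Field K]

theorem it_zero' (P : K[X]) : it P 0 = X := rfl

theorem it_succ' (P : K[X]) (n : ℕ) : it P (n + 1) = P.comp (it P n) :=
  Function.iterate_succ_apply' _ _ _

theorem it_one' (P : K[X]) : it P 1 = P := by
  rw [it_succ', it_zero', comp_X]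

theorem it_natDegree' (P : K[X]) (n : ℕ) : (it P n).natDegree = P.natDegree ^ n := by
  induction n with
  | zero => simp [it_zero']
  | succ n ih => rw [it_succ', natDegree_comp, ih, pow_succ, mul_comm]

theorem semi_it' {p A P : K[X]} (h : p.comp A = P.comp p) (n : ℕ) :
    p.comp (it A n) = (it P n).comp p := by
  induction n with
  | zero => simp [it_zero']
  | succ n ih => rw [it_succ', it_succ', ← comp_assoc, h, comp_assoc, ih, comp_assoc]

theorem it_add' (P : K[X]) (m n : ℕ) : it P (m + n) = (it P m).comp (it P n) := by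
  induction m with
  | zero => simp [it_zero']
  | succ m ih => rw [Nat.succ_add, it_succ', it_succ', ih, comp_assoc]

theorem it_it' (P : K[X]) (n m : ℕ) : it (it P n) m = it P (n * m) := by
  induction m with
  | zero => simp [it_zero']
  | succ m ih => rw [it_succ', ih, Nat.mul_succ, add_comm, it_add']

theorem semi_natDegree {P Q : K[X]} (h : Semi P Q) : P.natDegree = Q.natDegree := by
  obtain ⟨p, hp, h⟩ := h
  have := congrArg natDegree h
  rw [natDegree_comp, natDegree_comp, mul_comm Q.natDegree] at this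
  exact Nat.eq_of_mul_eq_mul_left hp this

theorem semi_refl (P : K[X]) : Semi P P := ⟨X, by simp, by simp⟩

theorem cheb_step (hC1 : S_C1 K) (hC2 : S_C2 K) (hC3 : S_C3 K) (hC4 : S_C4 K)
    {P Q R : K[X]} {n : ℕ} (hd : 2 ≤ P.natDegree) (hdQ : 2 ≤ Q.natDegree) (hn : 1 ≤ n)
    (h1 : Semi R (it P n)) (h2 : Semi R (it Q n)) (hP : Cheb P) : Cheb Q := by
  have hPn : 2 ≤ (it P n).natDegree := by
    rw [it_natDegree']
    calc 2 ≤ P.natDegree := hd
      _ = P.natDegree ^ 1 := (pow_one _).symm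
      _ ≤ P.natDegree ^ n := Nat.pow_le_pow_right (by omega) hn
  have hRdeg : R.natDegree = (it P n).natDegree := semi_natDegree h1
  obtain ⟨p, hp, hpR⟩ := h1
  obtain ⟨q, hq, hqR⟩ := h2
  have hR : Cheb R := hC2 (it P n) p R (hC4.2 P n hP) hPn hp hpR.symm
  obtain ⟨L, hL, ε, hε, hRL⟩ := hC1.1 R hR (by omega)
  have hqL : 0 < (q.comp L).natDegree := by
    rw [natDegree_comp, hL, mul_one]; exact hq
  have key : (it Q n).comp (q.comp L) = (q.comp L).comp (C ε * dickson 1 (1 : K) R.natDegree) := by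
    rw [comp_assoc, ← hRL, ← comp_assoc, ← comp_assoc, hqR]
  obtain ⟨α, c₀, hα, -, hF⟩ := hC3 (it Q n) (q.comp L) ε R.natDegree (by omega) hε hqL key
  have hε' : ε ^ (q.comp L).natDegree = 1 ∨ ε ^ (q.comp L).natDegree = -1 := by
    rcases hε with h | h
    · left; rw [h, one_pow]
    · rw [h]; exact neg_one_pow_eq_or K _
  have hQn : Cheb (it Q n) :=
    hC1.2 (it Q n) (C α * X + C c₀) (ε ^ (q.comp L).natDegree) R.natDegree (by omega)
      (natDegree_linear hα) hε' hF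
  exact hC4.1 Q n hdQ hn hQn

theorem pow_step (hP' : S_P K) {P Q R : K[X]} {n : ℕ} (hd : 2 ≤ P.natDegree)
    (hdQ : 2 ≤ Q.natDegree) (hn : 1 ≤ n)
    (h1 : Semi R (it P n)) (h2 : Semi R (it Q n)) (hP : Pow P) : Pow Q := by
  have hPn : 2 ≤ (it P n).natDegree := by
    rw [it_natDegree']
    calc 2 ≤ P.natDegree := hd
      _ = P.natDegree ^ 1 := (pow_one _).symm
      _ ≤ P.natDegree ^ n := Nat.pow_le_pow_right (by omega) hn
  have hRdeg : R.natDegree = (it P n).natDegree := semi_natDegree h1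
  obtain ⟨p, hp, hpR⟩ := h1
  obtain ⟨q, hq, hqR⟩ := h2
  have hR : Pow R := hP'.1 (it P n) p R (hP'.2.2.2.1 P n hd hn hP) hPn hp hpR.symm
  have hQn : Pow (it Q n) := hP'.2.1 (it Q n) q R hR (by omega) hq hqR.symm
  exact hP'.2.2.1 Q n hdQ hn hQn

/-- **Chains of length two.** -/
theorem chain_two (hC1 : S_C1 K) (hC2 : S_C2 K) (hC3 : S_C3 K) (hC4 : S_C4 K) (hC6 : S_C6 K)
    (hPow : S_P K) (hA4 : S_A4 K) (hEND : S_END K)
    (P Q R : K[X]) (n : ℕ) (hd : 2 ≤ P.natDegree) (hPQ : P.natDegree = Q.natDegree) (hn : 1 ≤ n)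
    (h1 : Semi R (it P n)) (h2 : Semi R (it Q n)) :
    ∃ φ₁ S φ₂ : K[X], Semi φ₁ P ∧ Semi φ₁ S ∧ Semi φ₂ S ∧ Semi φ₂ Q := by
  have hdQ : 2 ≤ Q.natDegree := hPQ ▸ hd
  by_cases hcP : Cheb P
  · have hcQ : Cheb Q := cheb_step hC1 hC2 hC3 hC4 hd hdQ hn h1 h2 hcP
    refine ⟨P, dickson 1 (1 : K) P.natDegree, Q, semi_refl P, hC6 P hd hcP, ?_, semi_refl Q⟩
    rw [hPQ]; exact hC6 Q hdQ hcQ
  have hcQ : ¬ Cheb Q := fun h => hcP (cheb_step hC1 hC2 hC3 hC4 hdQ hd hn h2 h1 h)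
  by_cases hpP : Pow P
  · have hpQ : Pow Q := pow_step hPow hd hdQ hn h1 h2 hpP
    exact ⟨P, Q, Q, semi_refl P, hPow.2.2.2.2 P Q hd hPQ hpP hpQ, semi_refl Q, semi_refl Q⟩
  have hpQ : ¬ Pow Q := fun h => hpP (pow_step hPow hdQ hd hn h2 h1 h)
  obtain ⟨p, hp, hpR⟩ := h1
  obtain ⟨q, hq, hqR⟩ := h2
  have hpR2 : p.comp (it R 2) = (it P (n * 2)).comp p := by
    rw [← it_it']; exact semi_it' hpR 2
  have hqR2 : q.comp (it R 2) = (it Q (n * 2)).comp q := by
    rw [← it_it']; exact semi_it' hqR 2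
  obtain ⟨A, hA⟩ := (hA4 P p (it R 2) (n * 2) hd (by omega) hp hpR2.symm).resolve_left hcP
  obtain ⟨B, hB⟩ := (hA4 Q q (it R 2) (n * 2) hdQ (by omega) hq hqR2.symm).resolve_left hcQ
  have hBdeg : B.natDegree = Q.natDegree := semi_natDegree ⟨q, hq, hB.symm⟩
  have hpB : ¬ Pow B := fun h => hpQ (hPow.2.1 Q q B h (by omega) hq hB)
  obtain ⟨W, -, hAW, hBW⟩ := hEND P Q (it R 2) A B p q (n * 2) hd hPQ (by omega) hp hq hpR2 hqR2
    hA hB hpB
  exact ⟨A, W, B, ⟨p, hp, hA.symm⟩, hAW, hBW, ⟨q, hq, hB.symm⟩⟩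

end Pool.Agent.H211.CH
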