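import Mathlib

/-!
# Chains of strict intertwining of polynomials (problem MP_1d703b_an): definitions and statements

`K` is algebraically closed of characteristic zero in all the statements. Cancellation, Riemann-Hurwitz,
the theorem of Engstrom (common right and left factors), exceptional maps.
-/

set_option autoImplicit false

open Polynomial

namespace Pool.Agent.H211.CH

universe u v

section defs

variable {K : Type u} [Field K]

/-- The iterate `P^n`. -/
noncomputable def it (P : K[X]) (n : ℕ) : K[X] := (fun q => P.comp q)^[n] X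

/-- `P ≥ Q`: there is a nonconstant `p` with `p ∘ P = Q ∘ p`. -/
def Semi (P Q : K[X]) : Prop := ∃ p : K[X], 0 < p.natDegree ∧ p.comp P = Q.comp p

/-- The multiplicity of `G` at `y`. -/
noncomputable def mu (G : K[X]) (y : K) : ℕ := (G - C (G.eval y)).rootMultiplicity y

/-- Chebyshev maps: covering maps of the orbifold with two points of order two. -/
def Cheb (F : K[X]) : Prop :=
  ∃ w₁ w₂ : K, w₁ ≠ w₂ ∧ ∃ G : K[X], (F - C w₁) * (F - C w₂) = (X - C w₁) * (X - C w₂) * G ^ 2

/-- Power maps. -/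
def Pow (F : K[X]) : Prop := ∃ w c : K, F = C w + C c * (X - C w) ^ F.natDegree

/-- A Laurent series `th = x⁻¹ + ...` with `f (th) = x⁻ⁿ`, `n = deg f`, and the rotations `x ↦ ω x`. -/
structure Pui (f : K[X]) (th : LaurentSeries K)
    (r : K → (LaurentSeries K →ₐ[K] LaurentSeries K)) : Prop where
  low : ∀ k : ℤ, k < -1 → th.coeff k = 0
  one : th.coeff (-1) = 1
  val : aeval th f = HahnSeries.single (-(f.natDegree : ℤ)) (1 : K)
  rot : ∀ ω : K, ω ≠ 0 → ∀ (s : LaurentSeries K) (k : ℤ), (r ω s).coeff k = ω ^ k * s.coeff k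

end defs

/-- **Cancellation.**

Proof. `A'` has the same degree `a` as `A`. Put `β = lead B / lead B'`; replacing `B'` by `β B'` and `A' (z)` by
`A' (z / β)` we may assume `lead B = lead B'`, so `lead A = lead A'`. Then
`lead A * (B ^ a - B' ^ a)` has degree `≤ (a - 1) deg B` (the other terms of `A ∘ B` and `A' ∘ B'` have this degree at
most), `B ^ a - B' ^ a = (B - B') (B ^ (a-1) + ... + B' ^ (a-1))`, and the second factor has degree exactly
`(a - 1) deg B` (leading coefficient `a * lead B ^ (a-1)`, characteristic zero). So `deg (B - B') ≤ 0`.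
The last claim: `(A ∘ L - A') ∘ B' = 0` and `B'` is not constant (`Polynomial.comp_eq_zero_iff`). -/
def S_CAN (K : Type u) [Field K] : Prop :=
  ∀ A B A' B' : K[X], 0 < B.natDegree → B.natDegree = B'.natDegree → 0 < A.natDegree →
    A.comp B = A'.comp B' → ∃ L : K[X], L.natDegree = 1 ∧ B = L.comp B' ∧ A.comp L = A'

/-- **Riemann-Hurwitz.**

Proof. `rootMultiplicity y (derivative G) = mu G y - 1` (characteristic zero, `mu G y ≥ 1`), the fibres over different
`w` are disjoint, the sum of `mu G y` over the fibre is `deg G` (`K` is algebraically closed), and the sum of the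
multiplicities of the roots of `derivative G` is at most `deg G - 1`. -/
def S_RH (K : Type u) [Field K] : Prop :=
  ∀ G : K[X], 0 < G.natDegree → ∀ W : Finset K,
    ∑ w ∈ W, ((G.natDegree : ℤ) - ({y : K | G.eval y = w}.ncard : ℤ)) ≤ (G.natDegree : ℤ) - 1

/-- Multiplicities of compositions; sum of the multiplicities over a fibre; multiplicity at least one.

Proof. `G - C (G v) = (X - v) ^ a * g`, `g v ≠ 0`, `a = mu G v`, `v = H y`; so `G ∘ H - C _ = (H - C v) ^ a * (g ∘ H)`,
`(g ∘ H) y ≠ 0`. -/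
def S_MUL (K : Type u) [Field K] : Prop :=
  (∀ G H : K[X], 0 < G.natDegree → 0 < H.natDegree → ∀ y : K,
    mu (G.comp H) y = mu G (H.eval y) * mu H y) ∧
  (∀ G : K[X], 0 < G.natDegree → ∀ y : K, 1 ≤ mu G y) ∧
  ∀ G : K[X], 0 < G.natDegree → ∀ (w : K) (s : Finset K), (∀ y, y ∈ s ↔ G.eval y = w) →
    ∑ y ∈ s, mu G y = G.natDegree

/-- **The Laurent series and the rotations.**

Proof. `th = x⁻¹ u` with a power series `u`, `u 0 = 1`, and
`u ^ n + c_{n-1} x u ^ (n-1) + ... + c_0 x ^ n = 1` for `f = X ^ n + c_{n-1} X ^ (n-1) + ...`: the equation has a unique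
solution by Hensel's lemma (the derivative of the left side is the unit `n` at `x = 0`), or construct the
coefficients of `u` one after the other. The rotation `x ↦ ω x` of `K⟦x⟧` is `PowerSeries.rescale`; for
Laurent series define it by the formula and check that it is multiplicative (or extend to fractions; or use
`HahnSeries` maps). For `ω = 0` take the identity. -/
def S_PUI (K : Type u) [Field K] : Prop :=
  ∀ f : K[X], f.Monic → 0 < f.natDegree → ∃ (th : LaurentSeries K)
    (r : K → (LaurentSeries K →ₐ[K] LaurentSeries K)), Pui f th r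

/-- **The conjugates.** Also: `p (th)` has order `- deg p`.

Proof. (1) `th ^ j` has order `- j`, leading coefficient `1`. (2) For `ω ^ b = 1` put `th' = r ω th` (leading coefficient
`ω⁻¹` at `x⁻¹`). `f (th') = r ω (x⁻ⁿ) = x⁻ⁿ` as `b ∣ n`. `β = B (th)`, `β' = B (th')` both have order `- b` and leading
coefficient `1` there, and `A β = A β'`; `A β - A β' = (β - β') * S`, where
`S = ∑ a_k (β ^ (k-1) + ... + β' ^ (k-1))` has order `- b (a - 1)` with leading coefficient `a ≠ 0`
(`a = deg A`, `A` is monic). So `β = β'`. So the `b` elements `r ω th`, which are different from each other (look at the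
coefficient of `x⁻¹`), are roots of the monic polynomial `B (T) - B (th)` of degree `b`
(`K` contains `b` roots of unity). -/
def S_ROOTS (K : Type u) [Field K] : Prop :=
  ∀ (f : K[X]) (th : LaurentSeries K) (r : K → (LaurentSeries K →ₐ[K] LaurentSeries K)), Pui f th r →
    f.Monic →
    (∀ p : K[X], p ≠ 0 → (∀ k : ℤ, k < -(p.natDegree : ℤ) → (aeval th p).coeff k = 0) ∧
      (aeval th p).coeff (-(p.natDegree : ℤ)) = p.leadingCoeff) ∧
    ∀ A B : K[X], B.Monic → 0 < B.natDegree → 0 < A.natDegree → A.comp B = f →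
      B.map (algebraMap K (LaurentSeries K)) - C (aeval th B) =
        ∏ ω ∈ nthRootsFinset B.natDegree (1 : K), (X - C (r ω th))

/-- **Invariant polynomials.** If `V (r ω th) = V (th)` and `p (r ω th) = p (th)` for the `s` roots of unity `ω` of
order `s = deg V`, then `p` is a polynomial in `V`.

Proof. Expand `p = ∑ β_j V ^ j`, `deg β_j < s` (division by `V`, strong induction on the degree). Let
`q (T) = ∑_j (β_j (T) - β_j (th)) V (th) ^ j`, a polynomial in `T` of degree `< s` over the Laurent series; it vanishes at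
the `s` different elements `r ω th` (there `V (T) = V (th)`), so it is zero. Its coefficient of `T ^ i`, `i ≥ 1`, is
`∑_j β_{j,i} V (th) ^ j`, and `th` is transcendental (`S_ROOTS`), so `β_{j,i} = 0` for `i ≥ 1`: all `β_j` are constant. -/
def S_INV (K : Type u) [Field K] : Prop :=
  ∀ (f : K[X]) (th : LaurentSeries K) (r : K → (LaurentSeries K →ₐ[K] LaurentSeries K)), Pui f th r →
    f.Monic → ∀ V p : K[X], 0 < V.natDegree →
      (∀ ω ∈ nthRootsFinset V.natDegree (1 : K), aeval (r ω th) V = aeval th V) →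
      (∀ ω ∈ nthRootsFinset V.natDegree (1 : K), aeval (r ω th) p = aeval th p) →
        ∃ q : K[X], p = q.comp V

/-- **Engstrom, right factors** (weak form). Statements `S_PUI`, `S_ROOTS`, `S_INV` may be assumed.

Proof. WLOG (affine changes) `B`, `B'` and `f = A ∘ B = A' ∘ B'` monic. `b = deg B`, `d = deg B'`, `s = gcd b d`. In
`E[T]`, `E` the Laurent series, `B (T) - B (th) = ∏_{ω^b=1} (T - r ω th)`, and the same for `B'`; so the greatest
common divisor of these polynomials in `E[T]` is `G = ∏_{ω^s=1} (T - r ω th)`. Both are the images of polynomials of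
`K[t][T]` under `t ↦ th` (injective), and the greatest common divisor of polynomials over the field `K(t)` does not change
under field extensions (`Polynomial.gcd_map`); so `G` is the image of a monic polynomial of `K(t)[T]` which divides
the monic `B (T) - B (t)`, so it is in `K[t][T]` (`IsIntegrallyClosed.eq_map_mul_C_of_dvd`). So the
coefficient of `T ^ (s - k)` in `G` is `e_k (th)`, `e_k ∈ K[t]`. It has order `≥ -k` (it is a sum of products of `k` of the
`r ω th`), and it is invariant under `r ζ`, `ζ ^ s = 1` (this permutes the factors of `G`), so only multiples of `s` occur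
as exponents of `x`; for `0 < k < s` the order is therefore `≥ 0`, and by `S_ROOTS` `e_k` is constant. Hence
`G = V (T) + h (th)`, `V` monic of degree `s` without constant term, and `G (th) = 0` gives `h = - V`. So
`V (r ω th) = V (th)` for `ω ^ s = 1`, and by `S_INV` `B` and `B'` are polynomials in `V`. -/
def S_ER (K : Type u) [Field K] : Prop :=
  ∀ A B A' B' : K[X], 0 < A.natDegree → 0 < B.natDegree → 0 < A'.natDegree → 0 < B'.natDegree →
    A.comp B = A'.comp B' → 1 < Nat.gcd B.natDegree B'.natDegree →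
      ∃ V W W' : K[X], 1 < V.natDegree ∧ B = W.comp V ∧ B' = W'.comp V

/-- **Symmetric functions of the values at the roots.**

Proof. The characteristic polynomial of the multiplication by `q` on `R[T]/(p)` (free with basis `1, ..., T^(n-1)`), or of
`q` of the companion matrix; or the resultant with respect to `T` of `p (T)` and `X - q (T)`; or the fundamental theorem on
symmetric polynomials. -/
def S_SYM (K : Type u) : Prop :=
  ∀ (R : Type u) [CommRing R] (E : Type u) [Field E] (φ : R →+* E) (p q : R[X]) (s : Finset K)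
    (t : K → E), p.Monic → p.map φ = ∏ i ∈ s, (X - C (t i)) →
      ∃ Φ : R[X], Φ.Monic ∧ Φ.map φ = ∏ i ∈ s, (X - C ((q.map φ).eval (t i)))

/-- **Engstrom, left factors** (weak form). Statements `S_PUI`, `S_ROOTS`, `S_INV`, `S_ER`, `S_SYM` may be assumed.

Proof. Strip common right factors by `S_ER` (strong induction on `deg B`; the claim for `A, A'` does not change), so
`b = deg B`, `d = deg B'` are coprime; WLOG (affine changes) `B`, `B'` and `f = A ∘ B = A' ∘ B'` monic, so `A`, `A'` monic.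
If `d = 1`: `A' = A ∘ B ∘ B'⁻¹`, so `U = A` (`deg A > 1`). If `b = 1` similar. Let `b, d > 1`. With the Laurent series of
`f`, by `S_SYM` (with `R = K[u] → E`, `u ↦ B (th)`, `p = B (T) - u`, `q = B' (T)`) and `S_ROOTS`
`Φ = ∏_{ω^b=1} (y - B' (r ω th))` has coefficients `φ_k` which are polynomials in `B (th)`. `B' (th)` is invariant under
`r η`, `η ^ d = 1` (`S_ROOTS` for `B'`), so `B' (r ω th) = r ω (B' (th))` also; so the `φ_k` are invariant under the `r ζ`,
`ζ ^ (b d) = 1` (for `ζ ^ b = 1` the factors are permuted), so only multiples of `b d` occur as exponents of `x`. The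
coefficient `φ_k` of `y ^ k`, `0 < k < b`, has order `≥ - d (b - k) > - b d`, so `≥ 0`, so it is constant (`S_ROOTS`: a
polynomial in `th` of order `≥ 0` is constant). `φ_0` is a polynomial in `B (th)`, of order `- b d`, so of degree `d` in
`B (th)`. So `Φ = Γ (y) - Δ (B (th))`, `Γ` monic of degree `b`, `deg Δ = d`, and `Φ (B' (th)) = 0` gives
`Γ ∘ B' = Δ ∘ B =: W`, `deg W = b d`. Expand `A = ∑ α_j Δ ^ j` (`deg α_j < d`), `A' = ∑ γ_j Γ ^ j` (`deg γ_j < b`). From
`A ∘ B = A' ∘ B'`: `∑ (α_j ∘ B - γ_j ∘ B') W ^ j = 0` with coefficients of degree `< b d = deg W`, so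
`α_j ∘ B = γ_j ∘ B'` for all `j`, so `b deg α_j = d deg γ_j` with `deg α_j < d` and `b, d` coprime: all are
constants (and equal). So `A = U ∘ Δ`, `A' = U ∘ Γ`; `deg U = deg A / d = gcd (deg A) (deg A') > 1`, since
`b deg A = d deg A'`. -/
def S_EL (K : Type u) [Field K] : Prop :=
  ∀ A B A' B' : K[X], 0 < A.natDegree → 0 < B.natDegree → 0 < A'.natDegree → 0 < B'.natDegree →
    A.comp B = A'.comp B' → 1 < Nat.gcd A.natDegree A'.natDegree →
      ∃ U W W' : K[X], 1 < U.natDegree ∧ A = U.comp W ∧ A' = U.comp W'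

/-- **Chebyshev maps are Dickson polynomials** up to conjugation and sign; and conversely.

Proof. Conjugate by the affine map which takes `2, -2` to `w₁, w₂`. Then `F ^ 2 - 4 = (X ^ 2 - 4) G ^ 2`; substitute
`X = s + s⁻¹` in the Laurent polynomials `K[T;T⁻¹]` (or multiply by powers of `s`; or in `RatFunc`):
`(F - (s - s⁻¹) G) (F + (s - s⁻¹) G) = 4`, so both factors are units of `K[s, s⁻¹]`: `F + (s - s⁻¹) G = c s ^ k`,
`F - (s - s⁻¹) G = (4 / c) s ^ (-k)`, `2 F (s + s⁻¹) = c s ^ k + (4 / c) s ^ (-k)`. It is symmetric under `s ↦ s⁻¹`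
and `F` is not constant, so `k ≠ 0`, `c = 4 / c`, `c = ± 2` and `F (s + s⁻¹) = ± (s ^ k + s ^ (-k))`
(`Polynomial.dickson_one_one_eval_add_inv`), `|k| = deg F`. Conversely `T_D ^ 2 - 4 = (X ^ 2 - 4) U ^ 2`
with `U (s + s⁻¹) = (s ^ D - s ^ (-D)) / (s - s⁻¹)` (a Dickson polynomial of the second kind). -/
def S_C1 (K : Type u) [Field K] : Prop :=
  (∀ F : K[X], Cheb F → 0 < F.natDegree → ∃ L : K[X], L.natDegree = 1 ∧ ∃ ε : K, (ε = 1 ∨ ε = -1) ∧
    F.comp L = L.comp (C ε * dickson 1 (1 : K) F.natDegree)) ∧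
  ∀ (F L : K[X]) (ε : K) (D : ℕ), 1 ≤ D → L.natDegree = 1 → (ε = 1 ∨ ε = -1) →
    F.comp L = L.comp (C ε * dickson 1 (1 : K) D) → Cheb F

/-- **Up.**

Proof. `q = (X - w₁) (X - w₂)`, `q ∘ F = q G ^ 2`; `q ∘ p = N H ^ 2` with `N` monic squarefree up to a constant (put the
constant into `H`; `K` is algebraically closed). From `F ∘ p = p ∘ Y`:
`(N ∘ Y) (H ∘ Y) ^ 2 = q ∘ F ∘ p = N (H * (G ∘ p)) ^ 2`, so `N * (N ∘ Y)` is a square, and `N ∘ Y = N * G₁ ^ 2` since `N` is
squarefree. Differentiate: `(N' ∘ Y) * Y'` is divisible by `G₁`, and `G₁` is coprime to `N' ∘ Y` (at a root of `G₁` the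
value of `Y` is a root of `N`, which is simple); so `G₁ ∣ Y'`, `ν (D - 1) / 2 ≤ D - 1`, `ν = deg N ≤ 2`, `D = deg Y ≥ 2`.
`ν` is even (`2 deg p = ν + 2 deg H`). `ν = 0` would give `(p - w₁) (p - w₂) = H ^ 2` (up to a constant), with `u = p - (w₁+w₂)/2`:
`(u - H) (u + H) = const ≠ 0`, so `p` constant. So `N = c (X - v₁) (X - v₂)`, `v₁ ≠ v₂`. -/
def S_C2 (K : Type u) [Field K] : Prop :=
  ∀ F p Y : K[X], Cheb F → 2 ≤ F.natDegree → 0 < p.natDegree → F.comp p = p.comp Y → Cheb Y

/-- **Down**, with the form of `p` for `Y = ε T_D`.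

Proof. `h (s) = p (s + s⁻¹)`; `F (h (s)) = h (ε s ^ D)` as `Y (s + s⁻¹) = ε (s ^ D + s ^ (-D)) = (ε s ^ D) + (ε s ^ D)⁻¹`. Let
`h = α s ^ m + b s ^ j + (lower exponents)`, `0 < j < m`, `b ≠ 0` if there is such a term. The coefficient of
`s ^ (m (D - 1) + j)` in `F (h (s))` is `lead F * D * α ^ (D-1) * b`, and on the right only the exponents `m D`,
`j D < m (D - 1) + j`, ... occur: contradiction. So `h = α (s ^ m + s ^ (-m)) + c₀` (symmetry), `p = α T_m + c₀`, and
`F (α (v + v⁻¹) + c₀) = α ε ^ m (v ^ D + v ^ (-D)) + c₀` for `v = s ^ m`. -/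
def S_C3 (K : Type u) [Field K] : Prop :=
  ∀ (F p : K[X]) (ε : K) (D : ℕ), 2 ≤ D → (ε = 1 ∨ ε = -1) → 0 < p.natDegree →
    F.comp p = p.comp (C ε * dickson 1 (1 : K) D) →
      ∃ α c₀ : K, α ≠ 0 ∧ p = C α * dickson 1 (1 : K) p.natDegree + C c₀ ∧
        F.comp (C α * X + C c₀) = (C α * X + C c₀).comp (C (ε ^ p.natDegree) * dickson 1 (1 : K) D)

/-- **Roots of Chebyshev maps.** `S_C1`, `S_C3` may be assumed.

Proof. By `S_C1` and conjugation `it P n = ε T_D`, `D = d ^ n`. `S_C3` with `F = Y = it P n`, `p = P`: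
`P = α T_d + c₀` and `ε T_D (α z + c₀) = α ε ^ d T_D (z) + c₀`. The coefficient of `z ^ (D-1)` gives `c₀ = 0` (`T_D` has no
term `z ^ (D-1)`; if `D = 2` use the coefficient of `z`), then the coefficients of `z ^ D` and `z ^ (D-2)` give
`ε α ^ D = α ε ^ d`, `ε α ^ (D-2) = α ε ^ d` (for `D = 2` the constant term), so `α ^ 2 = 1`, `P = ± T_d`.
Second claim: from the definition, by induction (`q ∘ P = q G ^ 2` implies the same for the iterates). -/
def S_C4 (K : Type u) [Field K] : Prop :=
  (∀ (P : K[X]) (n : ℕ), 2 ≤ P.natDegree → 1 ≤ n → Cheb (it P n) → Cheb P) ∧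
    ∀ (P : K[X]) (n : ℕ), Cheb P → Cheb (it P n)

/-- `S_C1` may be assumed.

Proof. `P ∘ L = L ∘ (ε T_d)`, `T_2 ∘ (ε T_d) = T_{2d} = T_d ∘ T_2` (`dickson_one_one_comp_comm`, `dickson_one_one_mul`;
`T_2` is even); so `p = T_2 ∘ L⁻¹` satisfies `p ∘ P = T_d ∘ p`. -/
def S_C6 (K : Type u) [Field K] : Prop :=
  ∀ P : K[X], 2 ≤ P.natDegree → Cheb P → Semi P (dickson 1 (1 : K) P.natDegree)

/-- **Power maps**: up, down, roots, iterates, conjugation.

Proof. (1) `F = c X ^ D` after conjugation; `c (p) ^ D = p ∘ Y`; `N` the product of the `X - a` over the `ν` different roots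
`a` of `p`: `N ∘ Y` has exactly the roots of `N`. So `Y` has at most `ν` points over `ν` points; by `S_RH`
(may be assumed) `ν D - ν ≤ D - 1`, `ν = 1`, `p = α (X - a) ^ m`, `Y⁻¹ (a) = {a}`. (2) `Y = c (X - w) ^ D + w`, conjugate
to `w = 0`, `c = 1` (a root of `c`): `F ∘ p = p (X ^ D)`. As in `S_C3`, `p = α X ^ m + c₀` and
`F (α v + c₀) = α v ^ D + c₀`. (3) (2) with `F = Y = it P n`, `p = P`: `P = α X ^ d + c₀` when `it P n = X ^ D`, and
`(α v + c₀) ^ D = α v ^ D + c₀` gives `c₀ = 0`. (4) clear. (5) `c ≠ 0` for both; both are conjugate to `X ^ d`. -/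
def S_P (K : Type u) [Field K] : Prop :=
  (∀ F p Y : K[X], Pow F → 2 ≤ F.natDegree → 0 < p.natDegree → F.comp p = p.comp Y → Pow Y) ∧
  (∀ F p Y : K[X], Pow Y → 2 ≤ Y.natDegree → 0 < p.natDegree → F.comp p = p.comp Y → Pow F) ∧
  (∀ (P : K[X]) (n : ℕ), 2 ≤ P.natDegree → 1 ≤ n → Pow (it P n) → Pow P) ∧
  (∀ (P : K[X]) (n : ℕ), 2 ≤ P.natDegree → 1 ≤ n → Pow P → Pow (it P n)) ∧
  ∀ P Q : K[X], 2 ≤ P.natDegree → P.natDegree = Q.natDegree → Pow P → Pow Q → Semi P Q

end Pool.Agent.H211.CH
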