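import Pool.Agent.H211.CH.Stm

/-!
# Chains of strict intertwining of polynomials (problem MP_1d703b_an): statements, part 2

The coprime case, the lifting lemma and the common quotient. `K` is algebraically closed of characteristic zero.
-/

set_option autoImplicit false

open Polynomial

namespace Pool.Agent.H211.CH

universe u

/-- **Irreducibility for coprime degrees.**

Proof. `m = deg p`, `n = deg F` coprime. Suppose `p (x) - F (y) = G (y, x) * H (y, x)` in `K[y][x]` with `deg_x G, deg_x H < m`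
(both positive; the leading coefficients in `x` are constants). Give `x ^ i y ^ j` the weight `n i + m j`; for
`i < m` different monomials have different weights. So for all `α, β ≠ 0` the polynomial
`G (β s ^ m, α s ^ n)` in `s` has the degree `wt G` (the maximal weight, its leading coefficient is one nonzero
monomial in `α, β`), and the same for `H`. So `p (α s ^ n) - F (β s ^ m)` has the same degree for all
`α, β ≠ 0`. But it is `m n` if `lead p * α ^ m ≠ lead F * β ^ n` and smaller if there is equality. -/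
def S_IRR (K : Type u) [Field K] : Prop :=
  ∀ p F : K[X], 0 < p.natDegree → 0 < F.natDegree → Nat.Coprime p.natDegree F.natDegree →
    Irreducible ((p.map C - C F : K[X][X]))

/-- **The fibre product is parametrised**, for coprime degrees. `S_IRR`, `S_SYM` may be assumed.

Proof. Let `m = deg p`. By `S_SYM` (with `R = K[y]` and an algebraic closure of `K(y)`; the roots `t_i` of `p (T) - y` are different from
each other since `p' ≠ 0`) or by a resultant or a characteristic polynomial there is a monic `N ∈ K[y][X]` of degree `m` with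
`N = ∏ (X - Y (t_i))` over the roots `t_i` of `p (T) = y` (over the closure of `K(y)`), and the same after specialising
`y = y₀ ∈ K`: `N (y₀, X) = ∏ (X - Y (t))` over the roots `t` of `p (T) = y₀` with multiplicity. (The characteristic
polynomial of the multiplication by `Y` on `K[y][T] / (p (T) - y)` specialises.) As
`p (Y (t_i)) = F (p (t_i)) = F (y)`, every root of `N` (over the closure of `K(y)`) is a root of `p (X) - F (y)`, which is
irreducible over `K(y)` (`S_IRR` and the lemma of Gauss, its leading coefficient in `X` is constant); so `N` is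
divisible by it, and both have the degree `m`: `p (X) - F (y) = lead p * N (y, X)`. So if `p (x) = F (y₀)` then `x` is a root of
`N (y₀, X)`, so `x = Y (t)` with `p (t) = y₀`. -/
def S_FIB (K : Type u) [Field K] : Prop :=
  ∀ F p Y : K[X], 0 < p.natDegree → 0 < F.natDegree → Nat.Coprime p.natDegree F.natDegree →
    F.comp p = p.comp Y → ∀ x y : K, p.eval x = F.eval y → ∃ t : K, p.eval t = y ∧ Y.eval t = x

/-- **The coprime case.** `S_FIB`, `S_RH`, `S_MUL` may be assumed.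

Proof. `m = deg p`, `D = deg F`. For all `k`: `F^k ∘ p = p ∘ Y^k`, `n = D ^ k` coprime to `m`.
(c) Let `x` be a critical point of `p`, `e = mu p x ≥ 2`, `w = p x`. If `F^k y = w` and `e` does not divide `mu F^k y`, take `t`
with `p t = y`, `Y^k t = x` (`S_FIB`); `mu p t * mu F^k y = e * mu Y^k t` (`S_MUL`), so `mu p t > 1`, so `y` is a
critical value of `p`: there are at most `m - 1` such `y`. So the fibre of `F^k` over `w` has at most
`(m - 1) + n / e` points.
(d) Let `B` be the set of the critical values of `p` (nonempty, `m ≥ 2`). By `S_RH` for `F^k`: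
`∑_{w ∈ B'} (n - #fibre) ≤ n - 1` for `B' ⊆ B`. Three different points of `B`: `3 n / 2 - 3 (m - 1) ≤ n - 1`, false for large `n`.
`|B| = 2` and some `e ≥ 3`: `n / 6 ≤ 2 (m - 1) - 1`, false for large `n`. `|B| = 1`: `p` has only one
critical value `w`, so the fibre over it has `m - (m - 1) = 1` point: `p = w + c (X - a) ^ m`.
`B = {w₁, w₂}` and all `e ≤ 2`: if `F y ∈ B` and `mu F y` is odd then `y ∈ B` by (c) with `k = 1`. So
`(F - w₁) (F - w₂) = (X - w₁) ^ a (X - w₂) ^ b G ^ 2` with `a, b ∈ {0, 1}`, `a + b` even by degrees, and `a = b = 0` is impossible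
(then `G ∣ F'`, as `G` is coprime to `2 F - w₁ - w₂`, but `deg G = D > deg F'`). So `Cheb F`. -/
def S_A1 (K : Type u) [Field K] : Prop :=
  ∀ F p Y : K[X], 2 ≤ F.natDegree → 2 ≤ p.natDegree → Nat.Coprime p.natDegree F.natDegree →
    F.comp p = p.comp Y → Cheb F ∨ ∃ w c a : K, p = C w + C c * (X - C a) ^ p.natDegree

/-- **The form of `F` in the coprime case.**

Proof. `F (w + c x ^ m) - w = c (Y (a + x) - a) ^ m`. Write `F (w + z) - w = z ^ r S₀ (z)`, `S₀ 0 ≠ 0`; then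
`S₀ (c x ^ m)` is a constant times an `m`-th power of a polynomial in `x` (the power of `x` on the right is `m r`), so all
its roots have multiplicity divisible by `m`; `z = c x ^ m` is unramified at `x ≠ 0`, so all the roots of `S₀` have
multiplicity divisible by `m`, and `S₀ = S ^ m` (`K` is algebraically closed). -/
def S_A1b (K : Type u) [Field K] : Prop :=
  ∀ (F Y : K[X]) (m : ℕ) (w c a : K), 1 ≤ m → c ≠ 0 → 0 < F.natDegree →
    F.comp (C w + C c * (X - C a) ^ m) = (C w + C c * (X - C a) ^ m).comp Y →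
      ∃ (r : ℕ) (S : K[X]), F - C w = (X - C w) ^ r * S ^ m

/-- **Roots of such maps.** `S_RH`, `S_MUL` may be assumed.

Proof. `F = it P N`, `d = deg P`. Let `q` be a power of a prime `ℓ` which divides `m` exactly (`q ∣ m`, `m / q` prime to `ℓ`);
`ℓ` does not divide `d`. `S_j = {y : P^j y = w, q does not divide mu P^j y}`. `S_0 = {w}`, `S_N = {w}`: other roots of
`F - w` have multiplicity divisible by `m`, and the multiplicity of `w` is `≡ d ^ N` modulo `m`, prime to `ℓ`. For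
`x ∈ S_j` there is `y` with `P y = x` and `mu P y` prime to `ℓ` (the sum over the fibre is `d`), so `y ∈ S_{j+1}` if `mu P^j x` is prime to
`ℓ`... In detail: let `T_j` be the set of the `y` with `P^j y = w` and `mu P^j y` not divisible by `q`; by
`mu P^{j+1} y = mu P^j (P y) * mu P y` the map `P : T_{j+1} → T_j` is onto, so `1 = |T_0| ≤ |T_1| ≤ ... ≤ |T_N| = 1`. So
`T_j = {s_j}`, `s_0 = s_N = w`, `P s_{j+1} = s_j`; the multiplicity `mu P^j s_j` is prime to `ℓ` (`≡ d ^ j` modulo `q`), and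
all the points of the fibre of `P` over `s_j` other than `s_{j+1}` have multiplicity divisible by `q`. So (with
`a = mu P s_{j+1} ≥ 1`) the fibre over `s_j` has at most `1 + (d - a) / q` points. By `S_RH`, if there are `k` different
points among the `s_j`, `k (d - 1) (1 - 1 / q) ≤ d - 1`, so `k ≤ 2`, and `k = 2` implies `q = 2` and equality everywhere:
over `s_0` and `s_1` one simple point (`s_1` and `s_2 = s_0`) and all the others double:
`(P - s_0) (P - s_1) = (X - s_0) (X - s_1) G ^ 2`, `Cheb P`. Otherwise `s_1 = w` for all `q`: all the points of the fibre of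
`P` over `w` other than `w` have multiplicity divisible by `m`, so `P - w = (X - w) ^ r' S₁ ^ m`. -/
def S_A2 (K : Type u) [Field K] : Prop :=
  ∀ (P : K[X]) (N m r : ℕ) (w : K) (S : K[X]), 2 ≤ P.natDegree → 1 ≤ N → 2 ≤ m →
    Nat.Coprime m P.natDegree → it P N - C w = (X - C w) ^ r * S ^ m →
      Cheb P ∨ ∃ (r' : ℕ) (S₁ : K[X]), P - C w = (X - C w) ^ r' * S₁ ^ m

/-- **Lifting through a power.**

Proof. `P₁ = a + γ (X - a) ^ r * (S ∘ (w + c (X - a) ^ m))` with `c * γ ^ m = c ^ r` (`K` is algebraically closed). -/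
def S_A2b (K : Type u) [Field K] : Prop :=
  ∀ (P S : K[X]) (m r : ℕ) (w c a : K), 1 ≤ m → c ≠ 0 → P - C w = (X - C w) ^ r * S ^ m →
    ∃ P₁ : K[X], P.comp (C w + C c * (X - C a) ^ m) = (C w + C c * (X - C a) ^ m).comp P₁

/-- **Factors of iterates.** `S_CAN`, `S_EL` may be assumed.

Proof. Induction on `deg A`. `deg A = 1`: `P₂ = A⁻¹ ∘ P ∘ A`. `deg A > 1`: `deg A ∣ d ^ k`, so `gcd (d, deg A) > 1`.
`S_EL` for `P ∘ P^(k-1) = A ∘ B` (if `k = 1`, `P^0 = X`): `P = U ∘ P'`, `A = U ∘ A'`, `deg U > 1`. From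
`U ∘ (P' ∘ P^(k-1)) = U ∘ (A' ∘ B)` and `S_CAN`: `P' ∘ P^(k-1) = L ∘ A' ∘ B`, `U ∘ L = U`. Put `A'' = L ∘ A'`, so
`A = U ∘ A''` and `P' ∘ P^(k-1) = A'' ∘ B`. With `P₁ = P' ∘ U`: `P ∘ U = U ∘ P₁`, `P₁^k = P' ∘ P^(k-1) ∘ U = A'' ∘ (B ∘ U)`,
`deg A'' < deg A`. By induction `P₁ ∘ A'' = A'' ∘ P₂`, `P₂^k = B ∘ U ∘ A'' = B ∘ A`, and
`P ∘ A = P ∘ U ∘ A'' = U ∘ P₁ ∘ A'' = U ∘ A'' ∘ P₂ = A ∘ P₂`. -/
def S_A3 (K : Type u) [Field K] : Prop :=
  ∀ (P A B : K[X]) (k : ℕ), 2 ≤ P.natDegree → 1 ≤ k → it P k = A.comp B →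
    ∃ P₂ : K[X], P.comp A = A.comp P₂ ∧ it P₂ k = B.comp A

/-- **The lifting lemma.** `S_CAN`, `S_ER`, `S_A1`, `S_A1b`, `S_A2`, `S_A2b`, `S_A3`, `S_C4` may be assumed.

Proof. Assume `¬ Cheb P`; so `¬ Cheb (it P N)` (`S_C4`). Strong induction on `m = deg p`. `m = 1`: `P₁ = p⁻¹ ∘ P ∘ p`.
`m ≥ 2`, `gcd (m, d) = 1`: `S_A1` with `F = it P N`, then `S_A1b`, `S_A2`, `S_A2b`. `gcd (m, d) > 1`: `deg Y = d ^ N`; `S_ER` for
`P^N ∘ p = p ∘ Y` (right factors `p` and `Y`): `p = p' ∘ V`, `Y = Y' ∘ V`, `deg V > 1`; so `P^N ∘ p' = p ∘ Y' = p' ∘ (V ∘ Y')`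
(cancel `V`). Induction: `P ∘ p' = p' ∘ Q`. `p' ∘ Q^N = P^N ∘ p' = p' ∘ (V ∘ Y')`, so by `S_CAN` `Q^N = L ∘ V ∘ Y'` with
`p' ∘ L = p'`. `S_A3` for `Q`, `A = L ∘ V`, `B = Y'`: `Q ∘ L ∘ V = L ∘ V ∘ P₁`. Then
`p ∘ P₁ = p' ∘ V ∘ P₁ = p' ∘ L ∘ V ∘ P₁ = p' ∘ Q ∘ L ∘ V = P ∘ p' ∘ L ∘ V = P ∘ p' ∘ V = P ∘ p`. -/
def S_A4 (K : Type u) [Field K] : Prop :=
  ∀ (P p Y : K[X]) (N : ℕ), 2 ≤ P.natDegree → 1 ≤ N → 0 < p.natDegree →
    (it P N).comp p = p.comp Y → Cheb P ∨ ∃ P₁ : K[X], P.comp p = p.comp P₁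

/-- **The common quotient.** `S_CAN` may be assumed.

Proof. `d = deg P`. `p ∘ A^n = P^n ∘ p = p ∘ R`, so by `S_CAN` `A^n = L ∘ R` with `p ∘ L = p`; the same way `B^n = L' ∘ R`,
`q ∘ L' = q`. So `A^n = T ∘ B^n`, `T = L ∘ L'⁻¹`. `S_CAN` for `A^(n-1) ∘ A = (T ∘ B^(n-1)) ∘ B`: `A = M ∘ B`, `M` affine.
`B ∘ T = T' ∘ B` with `T'` affine: `p ∘ (A ∘ L) = P ∘ p ∘ L = P ∘ p = p ∘ A`, so `A ∘ L = L₁ ∘ A` (`S_CAN`), so
`B ∘ L = (M⁻¹ L₁ M) ∘ B`; `q ∘ (B ∘ L') = q ∘ B`, so `B ∘ L' = L₁' ∘ B`, `B ∘ L'⁻¹ = L₁'⁻¹ ∘ B`; compose.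
`A^(n+1) = A^n ∘ A = T ∘ B^n ∘ M ∘ B` and `= A ∘ A^n = M ∘ B ∘ T ∘ B^n = M ∘ T' ∘ B^n ∘ B`; cancel `B` on the right:
`B^n ∘ M = T⁻¹ ∘ M ∘ T' ∘ B^n`. By `S_CAN` (right factors `B ∘ M` and `B`) `B ∘ M = M₂ ∘ B`, `M₂` affine; then (`n ≥ 2`)
`B^(n-1) ∘ M₂ = T⁻¹ M T' ∘ B^(n-1)`, and again `B ∘ M₂ = M₃ ∘ B`. After the conjugation of `A` and `B` by one translation
the coefficient of `X ^ (d-1)` in `B` is `0` (then conjugate back). `M = ζ X + β`: the coefficient of `X ^ (d-1)` in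
`B ∘ M = M₂ ∘ B` gives `d b_d ζ ^ (d-1) β = 0`, so `β = 0`; in the same way `M₂ = ζ ^ d X`. So `A = ζ B`,
`B (ζ z) = ζ ^ d B (z)`. As `¬ Pow B` there is `i < d` with `b_i ≠ 0` and `ζ ^ i = ζ ^ d`, so `ζ` has a finite order `l ≥ 1`
(`ζ ^ l = 1`, `ζ` a primitive `l`-th root). `B ^ l` is invariant under `z ↦ ζ z`, so `B ^ l = W (z ^ l)`, and `A ^ l = ζ ^ l B ^ l` is
the same. With `π = z ^ l`: `π ∘ A = W ∘ π`, `π ∘ B = W ∘ π`, `deg W = d`. -/
def S_END (K : Type u) [Field K] : Prop :=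
  ∀ (P Q R A B p q : K[X]) (n : ℕ), 2 ≤ P.natDegree → P.natDegree = Q.natDegree → 2 ≤ n →
    0 < p.natDegree → 0 < q.natDegree → p.comp R = (it P n).comp p → q.comp R = (it Q n).comp q →
    P.comp p = p.comp A → Q.comp q = q.comp B → ¬ Pow B →
      ∃ W : K[X], W.natDegree = P.natDegree ∧ Semi A W ∧ Semi B W

end Pool.Agent.H211.CH
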